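import Pool.Agent.P.MP_c34bf4_an.Main

/-!
# Mild dissipation is an open property in the real Hénon family
-/

namespace Pool.Agent.Results.MP_c34bf4_an.Open

open Pool.Agent.P.MP_c34bf4_an

/-- The set of parameters `(c, b)` with `0 < |b| < 1` whose Hénon map is mildly dissipative
is open in the plane. -/
theorem result : IsOpen MildSet := isOpen_mildSet

end Pool.Agent.Results.MP_c34bf4_an.Open
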